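import Pool.Agent.Q288.NC.Bounded

set_option autoImplicit false

/-!
# Negative curves: standard forms with bounded multiplicities in degrees of order `m ^ (3 / 2)`

Let `P 1, …, P s`, `s ≥ 4`, be very general points of the complex projective plane and let `C` be an
irreducible curve with `C ^ 2 < 0`, of class `d H - ∑ w i E i`, which is not a `(-1)`-curve. Finitely
many quadratic transformations carry the class of `C` to the class `d1 H - ∑ w1 i E i`, `d1 ≤ d`,
`w1 i ≤ w i`, of an irreducible curve at other very general points, which is standard, and `K C > 0`.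

A vector `v` of multiplicities is filled for `m ≥ k ≥ 1` and the degree `d1` (`Filled m k d1 v`) if
all `v i ≤ m`; if for every multiplicity `v i > k` the smaller multiplicities that are `≥ min 2 k`
satisfy `∑ v j (v j + 1) ≥ 2 v i (v i + 1) (v i + 2)`; if `m (m + 1) (m + 6 √m + 10)` is at most
`(d1 + 1) (d1 + 2)` or at most `∑ (v i + 1).choose 2`; and if no multiplicity lies strictly between
`1` and `k`, or the difference between `(d1 + 2).choose 2` and `∑ (v i + 1).choose 2` is at least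
`2 (k + 1).choose 3`.

Then `∑ v i (v i + 1) ≤ d1 (d1 + 3)` for all filled `v ≤ w1`, so that
`C ^ 2 ≥ ∑ v i - 3 d1 - (∑ w1 i ^ 2 - ∑ v i ^ 2)`, and `w1` itself is not filled. The same is true
for `(d; w)` in place of `(d1; w1)`: a filled class is not the class of a negative curve, unless
of a `(-1)`-curve.
-/

namespace Pool.Agent.Results.MP_d3e5c7_ag.FilledStandardForms

open MvPolynomial Pool.Agent.TH167 Pool.Agent.TH167.SHDefs Pool.Agent.Q288.NC

lemma not_filled {s : ℕ} {P : Fin s → Fin 2 → ℂ} (hP : Gen P) {d : ℕ} {w : Fin s → ℕ}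
    {C : MvPolynomial (Fin 3) ℂ} (hC : Curve P C d w) (hneg : inter d w d w < 0)
    (hK : 0 < interK d w) (m k : ℕ) : ¬ Filled m k d w := by
  intro h
  have h1 := filled_ineq hP hC h fun _ => le_rfl
  have h2 : ((∑ i, w i * (w i + 1) : ℕ) : ℤ) ≤ ((d * (d + 3) : ℕ) : ℤ) := by exact_mod_cast h1
  push_cast at h2
  have h3 : ∑ i, (w i : ℤ) * ((w i : ℤ) + 1) = ∑ i, (w i : ℤ) * w i + ∑ i, (w i : ℤ) := by
    rw [← Finset.sum_add_distrib]
    exact Finset.sum_congr rfl fun i _ => by ring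
  rw [h3] at h2
  unfold inter at hneg
  unfold interK at hK
  nlinarith

theorem result : ∀ s : ℕ, 4 ≤ s →
    ∃ Z : ℕ → MvPolynomial (Fin s × Fin 2) ℂ, (∀ n, Z n ≠ 0) ∧
      ∀ P : Fin s → Fin 2 → ℂ,
        (∀ n, MvPolynomial.eval (fun ij : Fin s × Fin 2 => P ij.1 ij.2) (Z n) ≠ 0) →
        ∀ (d : ℕ) (w : Fin s → ℕ) (C : MvPolynomial (Fin 3) ℂ),
          Curve P C d w → inter d w d w < 0 → ¬ MinusOne P C d w →
          (∀ m k : ℕ, ¬ Filled m k d w) ∧
          ∃ (P1 : Fin s → Fin 2 → ℂ) (d1 : ℕ) (w1 : Fin s → ℕ) (C1 : MvPolynomial (Fin 3) ℂ),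
            (∀ n, MvPolynomial.eval (fun ij : Fin s × Fin 2 => P1 ij.1 ij.2) (Z n) ≠ 0) ∧
            Curve P1 C1 d1 w1 ∧ Relation.ReflTransGen Quadratic (d, w) (d1, w1) ∧
            (∀ i j k : Fin s, i ≠ j → i ≠ k → j ≠ k → w1 i + w1 j + w1 k ≤ d1) ∧
            d1 ≤ d ∧ (∀ i, w1 i ≤ w i) ∧
            inter d1 w1 d1 w1 = inter d w d w ∧ interK d1 w1 = interK d w ∧
            0 < interK d w ∧
            (∀ m k : ℕ, ¬ Filled m k d1 w1) ∧
            ∀ (m k : ℕ) (v : Fin s → ℕ), Filled m k d1 v → (∀ i, v i ≤ w1 i) →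
              ∑ i, v i * (v i + 1) ≤ d1 * (d1 + 3) := by
  intro s hs
  obtain ⟨Z, hZ, h⟩ := SH.exists_fam (Fin s × Fin 2)
  refine ⟨Z, hZ, fun P hP0 d w C hC hneg hne => ?_⟩
  have hP := (h _).1 hP0
  obtain ⟨P1, d1, w1, C1, h1, h2, h3, h4, h5, h6, h7, h8, h9⟩ := std_neg hs hP hC hneg hne
  refine ⟨not_filled hP hC hneg h9, P1, d1, w1, C1, (h _).2 h1, h2, h3, h4, h5, h6, h7, h8, h9,
    not_filled h1 h2 (by rw [h7]; exact hneg) (by rw [h8]; exact h9), ?_⟩
  intro m k v hv hle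
  exact filled_ineq h1 h2 hv hle

end Pool.Agent.Results.MP_d3e5c7_ag.FilledStandardForms
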