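import Mathlib
import Pool.Agent.Y205.AV.Large
import Pool.Agent.Y939.NC.Reg
import Pool.Agent.Q310.FP.Fourth

set_option autoImplicit false

/-!
# Negative curves: genus, self-intersection and the fourth multiplicity of the standard form

Let `P 1, …, P n`, `n ≥ 4`, be very general points of the complex projective plane and let `C` be an
irreducible curve with `C ^ 2 < 0`, of class `d H - ∑ w i E i`, which is not a `(-1)`-curve. If all its
multiplicities are at most `μ`, then `0 < K C` and `K C - C ^ 2 < 10011 (μ + 1) ^ 2`, whatever the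
number of the points and the degree are. Moreover finitely many quadratic transformations carry the
class of `C` to the class `d1 H - ∑ w1 i E i`, `d1 ≤ d`, `w1 i ≤ w i`, of an irreducible curve at other
very general points, which is standard, neither large (`Pool.Agent.Y205.AV.Large`) nor good
(`Pool.Agent.Y939.NC.Good`), and such that
* `∑ w1 i + 2 (K C - C ^ 2) < 25000 (μ1 + 1) ^ 2 + 4` for every upper bound `μ1` of the `w1 i`;
* the numbers `w1 i`, written in decreasing order `v 0 ≥ v 1 ≥ ⋯`, satisfy `Small4`: `v 3 > 0`;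
  `v 2 < 2 (v 3) ^ 2 + 3 v 3 + 2`; `v 2 < 4 m ^ 2 + 8 m + 5` for every `m ≥ 1` such that at most the
  first five multiplicities are larger than `m`;
  `(d1 + 1) (d1 + 2) < 2 ^ 17 (v 3 + 1) ^ 4 + ∑_{i < 3} v i (v i + 1)`;
  `∑_{i ≥ 3} (v i + 1).choose 2 < 2 ^ 17 (v 3 + 1) ^ 4`;
  `d1 + 1 + v 0 v 1 + v 0 v 2 + v 1 v 2 < 2 ^ 16 (v 3 + 1) ^ 4`.
So for every value of the fourth multiplicity of the standard form only finitely many standard classes
are left, for all numbers of points together.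
-/

namespace Pool.Agent.Results.MP_d3e5c7_ag.GenusAndSelfIntersection

open MvPolynomial Pool.Agent.TH167 Pool.Agent.TH167.SHDefs Pool.Agent.Q310.FP
open Pool.Agent.Y205.AV (Large)
open Pool.Agent.Y939.NC (Good)

theorem result : ∃ N0 : ℕ, ∀ n : ℕ, 4 ≤ n →
    ∃ Z : ℕ → MvPolynomial (Fin n × Fin 2) ℂ, (∀ k, Z k ≠ 0) ∧
      ∀ P : Fin n → Fin 2 → ℂ,
        (∀ k, MvPolynomial.eval (fun ij : Fin n × Fin 2 => P ij.1 ij.2) (Z k) ≠ 0) →
        ∀ (d : ℕ) (w : Fin n → ℕ) (C : MvPolynomial (Fin 3) ℂ),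
          Curve P C d w → inter d w d w < 0 → ¬ MinusOne P C d w →
          0 < interK d w ∧
          (∀ μ : ℕ, (∀ i, w i ≤ μ) →
            interK d w - inter d w d w < 10011 * ((μ : ℤ) + 1) ^ 2) ∧
          ∃ (P1 : Fin n → Fin 2 → ℂ) (d1 : ℕ) (w1 : Fin n → ℕ) (C1 : MvPolynomial (Fin 3) ℂ),
            (∀ k, MvPolynomial.eval (fun ij : Fin n × Fin 2 => P1 ij.1 ij.2) (Z k) ≠ 0) ∧
            Curve P1 C1 d1 w1 ∧ Relation.ReflTransGen Quadratic (d, w) (d1, w1) ∧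
            Standard d1 w1 ∧ d1 ≤ d ∧ (∀ i, w1 i ≤ w i) ∧
            inter d1 w1 d1 w1 = inter d w d w ∧ interK d1 w1 = interK d w ∧
            ¬ Large d1 w1 ∧ ¬ Good N0 d1 w1 ∧ Rem4 d1 w1 ∧
            ∀ μ : ℕ, (∀ i, w1 i ≤ μ) →
              ∑ i, (w1 i : ℤ) + 2 * (interK d w - inter d w d w) <
                25000 * ((μ : ℤ) + 1) ^ 2 + 4 := by
  classical
  obtain ⟨N0, hN0⟩ := Pool.Agent.Y939.NC.reg_exp
  refine ⟨N0, fun n hn => ?_⟩
  obtain ⟨Z, hZ, h⟩ := SH.exists_fam (Fin n × Fin 2)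
  refine ⟨Z, hZ, fun P hP0 d w C hC hneg hne => ?_⟩
  have hR : ∀ (d : ℕ) (w : Fin n → ℕ), Standard d w →
      GE d w ∨ (¬ Large d w ∧ ¬ Good N0 d w ∧ Rem4 d w) := by
    intro d w hs
    by_cases h1 : Large d w
    · exact Or.inl fun K _ _ P hP => Pool.Agent.Y205.AV.large_exp h1 hP
    by_cases h2 : Good N0 d w
    · exact Or.inl fun K _ _ P hP => Pool.Agent.Y939.NC.good_exp hN0 hn hs h2 hP
    rcases std_or4 hn d w hs with h3 | h3
    · exact Or.inl h3
    · exact Or.inr ⟨h1, h2, h3⟩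
  obtain ⟨hK0, P1, d1, w1, C1, a1, a2, a3, a4, a5, a6, a7, a8, a9, hL, hG, h4⟩ :=
    neg_rem hn (R := fun d w => ¬ Large d w ∧ ¬ Good N0 d w ∧ Rem4 d w) hR ((h _).1 hP0) hC hneg hne
  have hvd : virtdim d1 w1 = SH.chi d1 w1 - 1 := SH.virtdim_eq d1 w1
  have hchi : SH.chi d1 w1 ≤ 0 := by omega
  have h7 := SH.two_chi d1 w1
  rw [SH.inter_eq, SH.inter_eq] at a7
  rw [SH.interK_eq, SH.interK_eq] at a8
  have hchi2 : ((d1 + 2).choose 2 : ℤ) - ∑ i, ((w1 i + 1).choose 2 : ℤ) = SH.chi d1 w1 := by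
    unfold SH.chi
    push_cast
    rfl
  have habs : |((d1 + 2).choose 2 : ℤ) - ∑ i, ((w1 i + 1).choose 2 : ℤ)| = - SH.chi d1 w1 := by
    rw [hchi2, abs_of_nonpos hchi]
  have hX : 2 * SH.chi d1 w1 = SH.ip d w d w + SH.kk d w + 2 := by omega
  have hb1 : ∀ μ : ℕ, (∀ i, w1 i ≤ μ) →
      ∑ i, (w1 i : ℤ) + 4 * (- SH.chi d1 w1) < 25000 * ((μ : ℤ) + 1) ^ 2 := by
    intro μ hμ
    by_contra hcon
    rw [not_lt, ← habs] at hcon
    exact hL ⟨Finset.univ, μ, _, fun i _ => hμ i, fun i hi => absurd (Finset.mem_univ i) hi, le_rfl,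
      Or.inl hcon⟩
  have hb2 : ∀ μ : ℕ, (∀ i, w1 i ≤ μ) →
      - SH.chi d1 w1 < ∑ i, (w1 i : ℤ) + 26 * ((μ : ℤ) + 1) ^ 2 := by
    intro μ hμ
    by_contra hcon
    rw [not_lt, ← habs] at hcon
    exact hL ⟨Finset.univ, μ, _, fun i _ => hμ i, fun i hi => absurd (Finset.mem_univ i) hi, le_rfl,
      Or.inr (Or.inl hcon)⟩
  rw [SH.inter_eq] at hneg
  refine ⟨hK0, fun μ hμ => ?_, P1, d1, w1, C1, (h _).2 a1, a2, a3, a4, a5, a6,
    by rw [SH.inter_eq, SH.inter_eq, a7], by rw [SH.interK_eq, SH.interK_eq, a8], hL, hG, h4,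
    fun μ hμ => ?_⟩
  · have hμ1 : ∀ i, w1 i ≤ μ := fun i => (a6 i).trans (hμ i)
    have g1 := hb1 μ hμ1
    have g2 := hb2 μ hμ1
    have hμ0 : 1 ≤ μ := by
      by_contra hcon
      have h0 : ∀ i, w i = 0 := fun i => by
        have := hμ i
        omega
      have h5 : SH.ip d w d w = (d : ℤ) * d := by
        have : inter d w d w = (d : ℤ) * d := by
          unfold inter
          simp [h0]
        rw [← SH.inter_eq, this]
      have h6 : (0 : ℤ) ≤ (d : ℤ) * d := by positivity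
      omega
    have hμR : (1 : ℤ) ≤ μ := by exact_mod_cast hμ0
    have h4 : (4 : ℤ) ≤ ((μ : ℤ) + 1) ^ 2 := by nlinarith
    rw [SH.inter_eq, SH.interK_eq]
    linarith
  · have g1 := hb1 μ hμ
    rw [SH.inter_eq, SH.interK_eq]
    linarith

end Pool.Agent.Results.MP_d3e5c7_ag.GenusAndSelfIntersection
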