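import Pool.Agent.TH718.UG.Near2
import Pool.Agent.TH167.CL.Neg
import Pool.Agent.TH167.T3.Zar

set_option autoImplicit false

/-!
# Q1 for all classes whose multiplicities larger than three are `k` or `k + 1`

Let `s ≥ 4` and let `P 1, …, P s` be very general points of the complex projective plane. Let `C` be
an irreducible curve on the blow-up, of class `d H - ∑ w i E i`.

* If all multiplicities larger than three are equal to `k` or to `k + 1`, for some `k`, and `C ^ 2 < 0`,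
  then `C` is a `(-1)`-curve.
* If `T` is a set of at least ten of the points, at which all multiplicities are `k` or `k + 1`, `k ≥ 1`,
  then `C ^ 2 ≥ 1 - ∑_{i ∉ T} w i ^ 2`, or `C ^ 2 = - ∑_{i ∉ T} w i ^ 2`, the set `T` has ten elements,
  `k = 1` and `d` is `4` or `5`.
* If `T` is a set of at least twelve of the points, or of at least ten of them if `3` does not divide `d`,
  then `∑_{i ∈ T} w i + 1 - 3 / √|T| ≤ √|T| d`.
-/

namespace Pool.Agent.Results.MP_d3e5c7_ag.NearUniformClasses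

open MvPolynomial Pool.Agent.TH167 Pool.Agent.TH167.SHDefs

/-- No curve of a class which does not occur at general points. -/
theorem no_curve {s : ℕ} {P : Fin s → Fin 2 → ℂ}
    (hP : AlgebraicIndependent ℚ (fun ij : Fin s × Fin 2 => P ij.1 ij.2)) {d : ℕ} {w : Fin s → ℕ}
    {G : MvPolynomial (Fin 3) ℂ} (hG : Curve P G d w) (h : TH718.UG.Van w d) : False := by
  obtain ⟨F, hF, hF'⟩ := h
  have h1 : aeval (fun ij : Fin s × Fin 2 => P ij.1 ij.2) F ≠ 0 := fun h0 =>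
    hF ((algebraicIndependent_iff.1 hP) F h0)
  have h2 := (hF' P h1).1
  have h3 : G ∈ H248R5.forms w P d := by
    unfold H248R5.forms
    rw [Submodule.mem_inf, Submodule.restrictScalars_mem, Ideal.mem_iInf]
    exact ⟨hG.homogeneous, fun i => (hG.mult i).1⟩
  rw [h2, Submodule.mem_bot] at h3
  exact hG.irreducible.ne_zero h3

/-- The first two inequalities, for one curve. -/
theorem ineqs {s : ℕ} {P : Fin s → Fin 2 → ℂ}
    (hP : AlgebraicIndependent ℚ (fun ij : Fin s × Fin 2 => P ij.1 ij.2)) {d : ℕ} {w : Fin s → ℕ}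
    {G : MvPolynomial (Fin 3) ℂ} (hG : Curve P G d w) (T : Finset (Fin s)) (hT : 10 ≤ T.card) :
    ((12 ≤ T.card ∨ ¬ 3 ∣ d) →
      (∑ i ∈ T, (w i : ℝ)) + 1 - 3 / √(T.card : ℝ) ≤ √(T.card : ℝ) * d) ∧
    ∀ k : ℕ, 1 ≤ k → (∀ i ∈ T, w i = k ∨ w i = k + 1) →
      ∑ i ∈ T, w i ^ 2 < d ^ 2 ∨
        (T.card = 10 ∧ k = 1 ∧ (d = 4 ∨ d = 5) ∧ ∑ i ∈ T, w i ^ 2 = d ^ 2) := by
  classical
  have hd : 0 < d := by
    rcases Nat.eq_zero_or_pos d with h0 | h0
    · exfalso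
      subst h0
      have h1 := hG.homogeneous
      have h2 := (MvPolynomial.totalDegree_eq_zero_iff_eq_C (p := G)).1
        (Nat.le_zero.1 (MvPolynomial.IsHomogeneous.totalDegree_le h1))
      have h3 : G.coeff 0 ≠ 0 := by
        intro h4
        rw [h4, C_0] at h2
        exact hG.irreducible.ne_zero h2
      exact hG.irreducible.not_isUnit (by
        rw [h2]
        exact (IsUnit.mk0 _ h3).map C)
    · exact h0
  obtain ⟨t, ht⟩ : ∃ t, T.card = t := ⟨_, rfl⟩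
  have ht10 : 10 ≤ t := by omega
  let g : Fin t ↪o Fin s := T.orderEmbOfFin ht
  have hsum : ∀ {M : Type} [AddCommMonoid M] (f : Fin s → M), ∑ i ∈ T, f i = ∑ j : Fin t, f (g j) := by
    intro M _ f
    rw [← Finset.map_orderEmbOfFin_univ T ht, Finset.sum_map]
    rfl
  have hmem : ∀ j : Fin t, g j ∈ T := fun j => by
    have : g j ∈ Finset.map g.toEmbedding Finset.univ := Finset.mem_map_of_mem _ (Finset.mem_univ j)
    rwa [Finset.map_orderEmbOfFin_univ T ht] at this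
  constructor
  · intro h3
    by_contra hcon
    rw [not_le] at hcon
    rw [ht, hsum] at hcon
    rw [ht] at h3
    exact no_curve hP hG (TH718.UG.Van_sub g g.injective
      (TH718.UG.Van_of_Emp (TH718.UG.Emp_gap' ht10 (Fintype.card_fin t) hd h3
        (by rw [Nat.cast_sum]; exact hcon))))
  · intro k hk hw
    by_contra hcon
    rw [not_or, not_lt] at hcon
    rw [ht, hsum] at hcon
    exact no_curve hP hG (TH718.UG.Van_sub g g.injective
      (TH718.UG.Van_near_all ht10 hd hk (fun j => hw (g j) (hmem j)) hcon.1 hcon.2))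

theorem inter_split {s : ℕ} (d : ℕ) (w : Fin s → ℕ) (T : Finset (Fin s)) :
    inter d w d w = (d : ℤ) ^ 2 - ∑ i ∈ T, (w i : ℤ) ^ 2 - ∑ i ∈ Tᶜ, (w i : ℤ) ^ 2 := by
  classical
  unfold inter
  have h := Finset.sum_add_sum_compl T (fun i => (w i : ℤ) * w i)
  rw [← h]
  simp only [sq]
  ring

theorem result (r : ℕ) : ∃ Z : ℕ → MvPolynomial (Fin (r + 4) × Fin 2) ℂ, (∀ n, Z n ≠ 0) ∧
    ∀ P : Fin (r + 4) → Fin 2 → ℂ,
      (∀ n, MvPolynomial.eval (fun ij : Fin (r + 4) × Fin 2 => P ij.1 ij.2) (Z n) ≠ 0) →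
      ∀ (d : ℕ) (w : Fin (r + 4) → ℕ) (G : MvPolynomial (Fin 3) ℂ), Curve P G d w →
        (∀ k : ℕ, (∀ i, 3 < w i → w i = k ∨ w i = k + 1) → inter d w d w < 0 →
          MinusOne P G d w) ∧
        (∀ T : Finset (Fin (r + 4)), 10 ≤ T.card → ∀ k : ℕ, 1 ≤ k →
          (∀ i ∈ T, w i = k ∨ w i = k + 1) →
          1 - ∑ i ∈ Tᶜ, (w i : ℤ) ^ 2 ≤ inter d w d w ∨
            (inter d w d w = - ∑ i ∈ Tᶜ, (w i : ℤ) ^ 2 ∧ T.card = 10 ∧ k = 1 ∧ (d = 4 ∨ d = 5))) ∧
        ∀ T : Finset (Fin (r + 4)), 10 ≤ T.card → (12 ≤ T.card ∨ ¬ 3 ∣ d) →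
          (∑ i ∈ T, (w i : ℝ)) + 1 - 3 / √(T.card : ℝ) ≤ √(T.card : ℝ) * d := by
  classical
  obtain ⟨Z, hZ, h⟩ := SH.exists_fam (Fin (r + 4) × Fin 2)
  refine ⟨Z, hZ, fun P hP d w G hG => ?_⟩
  have hI := (h _).1 hP
  have key : ∀ T : Finset (Fin (r + 4)), 10 ≤ T.card → ∀ k : ℕ, 1 ≤ k →
      (∀ i ∈ T, w i = k ∨ w i = k + 1) →
      1 - ∑ i ∈ Tᶜ, (w i : ℤ) ^ 2 ≤ inter d w d w ∨
        (inter d w d w = - ∑ i ∈ Tᶜ, (w i : ℤ) ^ 2 ∧ T.card = 10 ∧ k = 1 ∧ (d = 4 ∨ d = 5)) := by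
    intro T hT k hk hw
    rcases (ineqs hI hG T hT).2 k hk hw with h1 | ⟨h1, h2, h3, h4⟩
    · left
      have h5 : ∑ i ∈ T, (w i : ℤ) ^ 2 < (d : ℤ) ^ 2 := by exact_mod_cast h1
      rw [inter_split d w T]
      linarith
    · right
      have h5 : ∑ i ∈ T, (w i : ℤ) ^ 2 = (d : ℤ) ^ 2 := by exact_mod_cast h4
      refine ⟨?_, h1, h2, h3⟩
      rw [inter_split d w T]
      linarith
  refine ⟨fun k hk hneg => ?_, key, fun T hT h3 => (ineqs hI hG T hT).1 h3⟩
  by_contra hne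
  obtain ⟨h1, h2, h3⟩ := SH.curve_iff.1 hG
  have hneg' := hneg
  rw [SH.inter_eq] at hneg'
  have hne' : ¬ (SH.ip d w d w = -1 ∧ SH.kk d w = 1) := fun h0 =>
    hne ⟨hG, by rw [SH.inter_eq, h0.1], by rw [SH.interK_eq, h0.2]⟩
  have hcl := CL.neg_cl hI h1 h2 h3 hneg' hne'
  obtain ⟨T, hTdef⟩ : ∃ T : Finset (Fin (r + 4)), T = Finset.univ.filter fun i => 4 ≤ w i := ⟨_, rfl⟩
  have h9 : 10 ≤ T.card := by
    by_contra hcon
    refine hne' (T3.neg9 ?_ hI h1 h2 h3 hneg')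
    have : (Finset.univ.filter fun i => 4 ≤ w i).card ≤ 9 := by rw [← hTdef]; omega
    exact this
  have hTw : ∀ i ∈ T, w i = k ∨ w i = k + 1 := fun i hi => by
    rw [hTdef, Finset.mem_filter] at hi
    exact hk i (by omega)
  have hk3 : 3 ≤ k := by
    obtain ⟨i, hi⟩ : T.Nonempty := Finset.card_pos.1 (by omega)
    have h4 := hTw i hi
    rw [hTdef, Finset.mem_filter] at hi
    omega
  have hrest : (∑ i ∈ Tᶜ, (w i : ℤ) ^ 2 = 0) ∨
      (inter d w d w = -1 ∧ ∑ i ∈ Tᶜ, (w i : ℤ) ^ 2 = 1) := by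
    have hTc : ∀ i, i ∈ Tᶜ ↔ ¬ 4 ≤ w i := fun i => by
      rw [Finset.mem_compl, hTdef, Finset.mem_filter]
      simp
    rcases hcl with hcl | ⟨hcl1, j0, hj0, hcl2⟩
    · left
      refine Finset.sum_eq_zero fun i hi => ?_
      have h5 : w i = 0 := by
        by_contra h0
        exact (hTc i).1 hi (hcl i h0)
      simp [h5]
    · right
      refine ⟨by rw [SH.inter_eq]; exact hcl1, ?_⟩
      have h6 : j0 ∈ Tᶜ := (hTc j0).2 (by omega)
      rw [Finset.sum_eq_single_of_mem j0 h6]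
      · simp [hj0]
      · intro i hi hij
        have h5 : w i = 0 := by
          by_contra h0
          exact (hTc i).1 hi (hcl2 i hij h0)
        simp [h5]
  rcases key T h9 k (by omega) hTw with h4 | ⟨_, _, h4, _⟩
  · rcases hrest with h5 | ⟨h5, h6⟩
    · rw [h5] at h4
      omega
    · rw [h5, h6] at h4
      omega
  · omega

end Pool.Agent.Results.MP_d3e5c7_ag.NearUniformClasses
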