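import Pool.Agent.Q288.NC.Var

set_option autoImplicit false

/-!
# Negative curves: the multiplicities of the standard form have a large variance

Let `P 1, …, P s`, `s ≥ 4`, be very general points of the complex projective plane and let `C` be an
irreducible curve with `C ^ 2 = -k < 0`, of class `d H - ∑ w i E i`, which is not a `(-1)`-curve.
Finitely many quadratic transformations carry the class of `C` to the class `d1 H - ∑ w1 i E i` of
an irreducible curve at other very general points, which is standard (the degree is at least the sum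
of any three multiplicities), `d1 ≤ d`, `w1 i ≤ w i`, and `K C > 0`.

For both classes and every set `T` of `n ≥ 18` of the points with `S = ∑_{i ∈ T} w i` at least
`n (n / 2 - 11 √n / 6 + 2)` the number `∑_{i ∈ T} (w i - S / n) ^ 2 + ∑_{i ∉ T} w i ^ 2` is larger
than `(1 - 11 / (3 √n) - 9 / (4 n)) S + k`; for `n ≥ 10` and `S > 0` it is larger than `k`.
-/

namespace Pool.Agent.Results.MP_d3e5c7_ag.StandardFormVariance

open MvPolynomial Pool.Agent.TH167 Pool.Agent.TH167.SHDefs Pool.Agent.Q288.NC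

theorem result : ∀ s : ℕ, 4 ≤ s →
    ∃ Z : ℕ → MvPolynomial (Fin s × Fin 2) ℂ, (∀ n, Z n ≠ 0) ∧
      ∀ P : Fin s → Fin 2 → ℂ,
        (∀ n, MvPolynomial.eval (fun ij : Fin s × Fin 2 => P ij.1 ij.2) (Z n) ≠ 0) →
        ∀ (d : ℕ) (w : Fin s → ℕ) (C : MvPolynomial (Fin 3) ℂ),
          Curve P C d w → inter d w d w < 0 → ¬ MinusOne P C d w →
          (∀ T : Finset (Fin s), WideSpread (-(inter d w d w : ℝ)) w T) ∧
          ∃ (P1 : Fin s → Fin 2 → ℂ) (d1 : ℕ) (w1 : Fin s → ℕ) (C1 : MvPolynomial (Fin 3) ℂ),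
            (∀ n, MvPolynomial.eval (fun ij : Fin s × Fin 2 => P1 ij.1 ij.2) (Z n) ≠ 0) ∧
            Curve P1 C1 d1 w1 ∧ Relation.ReflTransGen Quadratic (d, w) (d1, w1) ∧
            (∀ i j k : Fin s, i ≠ j → i ≠ k → j ≠ k → w1 i + w1 j + w1 k ≤ d1) ∧
            d1 ≤ d ∧ (∀ i, w1 i ≤ w i) ∧
            inter d1 w1 d1 w1 = inter d w d w ∧ interK d1 w1 = interK d w ∧
            0 < interK d w ∧
            ∀ T : Finset (Fin s), WideSpread (-(inter d w d w : ℝ)) w1 T := by
  intro s hs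
  obtain ⟨Z, hZ, h⟩ := SH.exists_fam (Fin s × Fin 2)
  refine ⟨Z, hZ, fun P hP0 d w C hC hneg hne => ?_⟩
  have hP := (h _).1 hP0
  refine ⟨fun T => wide hP hC T, ?_⟩
  obtain ⟨P1, d1, w1, C1, h1, h2, h3, h4, h5, h6, h7, h8, h9⟩ := std_neg hs hP hC hneg hne
  refine ⟨P1, d1, w1, C1, (h _).2 h1, h2, h3, h4, h5, h6, h7, h8, h9, fun T => ?_⟩
  rw [← h7]
  exact wide h1 h2 T

end Pool.Agent.Results.MP_d3e5c7_ag.StandardFormVariance
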